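import Pool.Agent.Helper56.AP.Stmts
import Pool.Agent.Helper4.SH.S1
import Pool.Agent.Helper9.AP.GQ

/-!
# Project A' (MP_8958e8): GG_bd and cI_lim
-/

open MeasureTheory Set Filter Topology
open Pool.Agent.Helper57.Zeta Pool.Agent.Helper57.PC Pool.Agent.Helper57.LH Pool.Agent.Helper78.SG
open Pool.Agent.Helper4.SH
open Pool.Agent.Helper69.FF Pool.Agent.Helper57.KP
open scoped ContDiff

set_option autoImplicit false

namespace Pool.Agent.AP

/-! ### GG_bd -/

/-- the radical -/
private noncomputable def rd (n : ℕ) : ℕ := ∏ p ∈ n.primeFactors, p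

private theorem rd_dvd (n : ℕ) : rd n ∣ n := Nat.prod_primeFactors_dvd n

private theorem rd_ne (n : ℕ) : rd n ≠ 0 :=
  Finset.prod_ne_zero_iff.2 fun _ hp => (Nat.prime_of_mem_primeFactors hp).ne_zero

private theorem rd_pf (n : ℕ) : (rd n).primeFactors = n.primeFactors :=
  Nat.primeFactors_prod fun _ hp => Nat.prime_of_mem_primeFactors hp

private theorem rd_sqf (n : ℕ) : Squarefree (rd n) := by
  unfold rd
  refine Finset.squarefree_prod_of_pairwise_isCoprime ?_ fun p hp => (Nat.prime_of_mem_primeFactors hp).squarefree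
  intro p hp q hq hpq
  exact Nat.coprime_iff_isRelPrime.1 ((Nat.coprime_primes (Nat.prime_of_mem_primeFactors hp) (Nat.prime_of_mem_primeFactors hq)).2 hpq)

private theorem fib (R r : ℕ) (hr : Squarefree r) :
    ∑ n ∈ (Finset.Icc 1 R).filter (fun n => rd n = r), ((n : ℝ))⁻¹ ≤ 1 / Nat.totient r := by
  have hr0 : r ≠ 0 := hr.ne_zero
  obtain ⟨f, hf⟩ : ∃ f : ℕ →* ℝ, ∀ n : ℕ, f n = ((n : ℝ))⁻¹ :=
    ⟨{ toFun := fun n => ((n : ℝ))⁻¹, map_one' := by simp, map_mul' := fun a b => by push_cast; rw [mul_inv] }, fun _ => rfl⟩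
  have h1 := (EulerProduct.summable_and_hasSum_factoredNumbers_prod_filter_prime_geometric (f := f) (fun {p} hp => by
    rw [hf, norm_inv, Real.norm_natCast]
    exact inv_lt_one_of_one_lt₀ (by exact_mod_cast hp.one_lt)) r.primeFactors).2
  have h2 : (r.primeFactors.filter fun p => p.Prime) = r.primeFactors :=
    Finset.filter_true_of_mem fun p hp => Nat.prime_of_mem_primeFactors hp
  rw [h2] at h1
  set S := (Finset.Icc 1 R).filter (fun n => rd n = r) with hS
  have hmem : ∀ n ∈ S, r * (n / r) = n ∧ n / r ∈ Nat.factoredNumbers r.primeFactors := by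
    intro n hn
    rw [hS, Finset.mem_filter, Finset.mem_Icc] at hn
    have h3 : r ∣ n := hn.2 ▸ rd_dvd n
    have h4 : r * (n / r) = n := Nat.mul_div_cancel' h3
    refine ⟨h4, Nat.mem_factoredNumbers_of_primeFactors_subset ?_ ?_⟩
    · intro h5
      rw [h5] at h4
      omega
    · rw [← hn.2, rd_pf]
      exact Nat.primeFactors_mono (Nat.div_dvd_of_dvd (hn.2 ▸ h3)) (by omega)
  have h3 : ∑ n ∈ S, ((n : ℝ))⁻¹ = (r : ℝ)⁻¹ * ∑ n ∈ S, f (n / r) := by
    rw [Finset.mul_sum]
    refine Finset.sum_congr rfl fun n hn => ?_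
    rw [hf, ← mul_inv, ← Nat.cast_mul, (hmem n hn).1]
  have h4 : ∑ n ∈ S, f (n / r) ≤ ∏ p ∈ r.primeFactors, (1 - f p)⁻¹ := by
    have h5 := (hasSum_subtype_iff_indicator.1 h1)
    have h6 : ∑ n ∈ S, f (n / r) = ∑ m ∈ S.image (fun n => n / r), (Nat.factoredNumbers r.primeFactors).indicator (fun m => f m) m := by
      rw [Finset.sum_image]
      · exact Finset.sum_congr rfl fun n hn => (Set.indicator_of_mem (hmem n hn).2 _).symm
      · intro a ha b hb hab
        have ha' := (hmem a ha).1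
        have hb' := (hmem b hb).1
        simp only at hab
        rw [← ha', ← hb', hab]
    rw [h6]
    exact sum_le_hasSum _ (fun m _ => Set.indicator_nonneg (fun n _ => by rw [hf]; positivity) _) h5
  have h5 : (r : ℝ)⁻¹ * ∏ p ∈ r.primeFactors, (1 - f p)⁻¹ = 1 / Nat.totient r := by
    have h6 := Nat.totient_mul_prod_primeFactors r
    have h7 : ∏ p ∈ r.primeFactors, p = r := Nat.prod_primeFactors_of_squarefree hr
    rw [h7] at h6
    have h8 : Nat.totient r = ∏ p ∈ r.primeFactors, (p - 1) := by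
      have h9 : 0 < r := Nat.pos_of_ne_zero hr0
      exact Nat.eq_of_mul_eq_mul_right h9 (by rw [h6]; ring)
    have h9 : (Nat.totient r : ℝ) = ∏ p ∈ r.primeFactors, ((p : ℝ) - 1) := by
      rw [h8]
      push_cast
      exact Finset.prod_congr rfl fun p hp => by
        rw [Nat.cast_sub (Nat.prime_of_mem_primeFactors hp).one_le]; simp
    have h10 : (r : ℝ) = ∏ p ∈ r.primeFactors, (p : ℝ) := by
      rw [← Nat.cast_prod, h7]
    rw [h9]
    nth_rw 1 [h10]
    rw [← Finset.prod_inv_distrib, ← Finset.prod_mul_distrib, one_div, ← Finset.prod_inv_distrib]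
    refine Finset.prod_congr rfl fun p hp => ?_
    have hp1 : (1 : ℝ) < p := by exact_mod_cast (Nat.prime_of_mem_primeFactors hp).one_lt
    rw [hf, ← mul_inv]
    congr 1
    field_simp
  rw [h3, ← h5]
  exact mul_le_mul_of_nonneg_left h4 (by positivity)

private theorem GG_lower (R : ℕ) (hR : 1 ≤ R) : Real.log R ≤ GG 1 R := by
  have h1 : Real.log R ≤ ∑ n ∈ Finset.Icc 1 R, ((n : ℝ))⁻¹ := by
    have h2 := log_add_one_le_harmonic R
    rw [harmonic_eq_sum_Icc] at h2
    push_cast at h2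
    refine (Real.log_le_log (by exact_mod_cast hR) (by linarith : (R : ℝ) ≤ (R : ℝ) + 1)).trans h2
  refine h1.trans ?_
  have h2 : ∀ n ∈ Finset.Icc 1 R, rd n ∈ (Finset.Icc 1 R).filter (fun r => Squarefree r ∧ Nat.Coprime r 1) := by
    intro n hn
    rw [Finset.mem_Icc] at hn
    rw [Finset.mem_filter, Finset.mem_Icc]
    exact ⟨⟨Nat.pos_of_ne_zero (rd_ne n), (Nat.le_of_dvd (by omega) (rd_dvd n)).trans hn.2⟩, rd_sqf n, Nat.coprime_one_right _⟩
  rw [← Finset.sum_fiberwise_of_maps_to h2]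
  unfold GG
  refine Finset.sum_le_sum fun r hr => ?_
  exact fib R r (Finset.mem_filter.1 hr).2.1

theorem GG_bd : Stmt_GG_bd := by
  obtain ⟨C₀, C, hC, h⟩ := GQ
  refine ⟨|C₀| + 4 * C, by positivity, fun R hR => ⟨GG_lower R hR, ?_⟩⟩
  have h1 := (abs_le.1 (h 1 R squarefree_one hR)).2
  have hR1 : (1 : ℝ) ≤ R := by exact_mod_cast hR
  have hR0 : (0 : ℝ) < R := by linarith
  have h2 : (1 + Real.log R) * (R : ℝ) ^ (-(1 / 3 : ℝ)) ≤ 4 := by
    have h3 : Real.log R ≤ 3 * (R : ℝ) ^ (1 / 3 : ℝ) := by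
      have := Real.log_le_rpow_div hR0.le (show (0 : ℝ) < 1 / 3 by norm_num)
      linarith
    have h4 : (1 : ℝ) ≤ (R : ℝ) ^ (1 / 3 : ℝ) := Real.one_le_rpow hR1 (by norm_num)
    rw [Real.rpow_neg hR0.le, ← div_eq_mul_inv, div_le_iff₀ (by linarith)]
    linarith
  have h3 : ((Nat.totient 1 : ℕ) : ℝ) / ((1 : ℕ) : ℝ) * (Real.log R + C₀ + ∑ p ∈ (1 : ℕ).primeFactors, Real.log p / p) = Real.log R + C₀ := by
    simp
  rw [h3] at h1
  have h4 : C * ((Nat.divisors 1).card : ℝ) * (1 + Real.log R) * (R : ℝ) ^ (-(1 / 3 : ℝ)) ≤ 4 * C := by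
    rw [Nat.divisors_one, Finset.card_singleton, Nat.cast_one, mul_one, mul_assoc]
    nlinarith
  linarith [le_abs_self C₀]

/-! ### cI_lim -/

/-- Mertens for continuous functions, away from `0` (`S1` of Helper4/SH with `φ(y) = ψ(y)/max y a`); copy of Helper69/PP/A0c -/
private theorem mert {ψ : ℝ → ℝ} (hψ : Continuous ψ) {a : ℝ} (ha : 0 < a) {ε : ℝ} (hε : 0 < ε) : ∀ᶠ T : ℝ in atTop,
    ∀ u u' : ℝ, a ≤ u → u ≤ u' → u' ≤ 1 →
      |(∑ p ∈ (PP T).filter (fun p => u < yy T p ∧ yy T p ≤ u'), yy T p / p * ψ (yy T p)) - ∫ y in u..u', ψ y| ≤ ε := by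
  have hmax : ∀ y, 0 < max y a := fun y => lt_max_of_lt_right ha
  have hφ : Continuous (fun y => ψ y / max y a) :=
    hψ.div (continuous_id.max continuous_const) (fun y => (hmax y).ne')
  filter_upwards [S1 hφ (half_pos hε)] with T hT u u' hau huu' hu'1
  have h1 := hT u ⟨(ha.le.trans hau), huu'.trans hu'1⟩
  have h2 := hT u' ⟨(ha.le.trans hau).trans huu', hu'1⟩
  have hsplit : (∑ p ∈ (PP T).filter (fun p => yy T p ≤ u'), ww T p ^ 2 * (ψ (yy T p) / max (yy T p) a)) =
      (∑ p ∈ (PP T).filter (fun p => yy T p ≤ u), ww T p ^ 2 * (ψ (yy T p) / max (yy T p) a)) +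
      ∑ p ∈ (PP T).filter (fun p => u < yy T p ∧ yy T p ≤ u'), yy T p / p * ψ (yy T p) := by
    have hd : Disjoint ((PP T).filter (fun p => yy T p ≤ u))
        ((PP T).filter (fun p => u < yy T p ∧ yy T p ≤ u')) := by
      rw [Finset.disjoint_left]
      intro p hp hp'
      exact absurd (Finset.mem_filter.1 hp').2.1 (not_lt.2 (Finset.mem_filter.1 hp).2)
    have hu : (PP T).filter (fun p => yy T p ≤ u') = (PP T).filter (fun p => yy T p ≤ u) ∪
        (PP T).filter (fun p => u < yy T p ∧ yy T p ≤ u') := by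
      ext p
      simp only [Finset.mem_union, Finset.mem_filter]
      constructor
      · rintro ⟨h, h'⟩
        rcases le_or_gt (yy T p) u with h3 | h3
        · exact Or.inl ⟨h, h3⟩
        · exact Or.inr ⟨h, h3, h'⟩
      · rintro (⟨h, h'⟩ | ⟨h, h', h''⟩)
        · exact ⟨h, h'.trans huu'⟩
        · exact ⟨h, h''⟩
    rw [hu, Finset.sum_union hd]
    congr 1
    apply Finset.sum_congr rfl
    intro p hp
    have hp' := Finset.mem_filter.1 hp
    have hpp : p.Prime := by
      have := hp'.1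
      unfold PP at this
      exact (Finset.mem_filter.1 this).2
    have hp0 : (0:ℝ) < p := by exact_mod_cast hpp.pos
    have hy : a ≤ yy T p := hau.trans hp'.2.1.le
    have hy0 : 0 < yy T p := ha.trans_le hy
    rw [max_eq_left hy]
    have hw : ww T p ^ 2 = yy T p ^ 2 / p := by
      unfold ww yy
      rw [div_pow, mul_pow, Real.sq_sqrt hp0.le, div_pow, div_div]
    rw [hw]
    field_simp
  have hii : ∀ b c : ℝ, IntervalIntegrable (fun y => y * (ψ y / max y a)) volume b c := fun b c =>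
    (continuous_id.mul hφ).intervalIntegrable _ _
  have hint : (∫ y in (0:ℝ)..u', y * (ψ y / max y a)) =
      (∫ y in (0:ℝ)..u, y * (ψ y / max y a)) + ∫ y in u..u', ψ y := by
    rw [← intervalIntegral.integral_add_adjacent_intervals (hii 0 u) (hii u u')]
    congr 1
    apply intervalIntegral.integral_congr
    intro y hy
    rw [uIcc_of_le huu'] at hy
    have hy1 : a ≤ y := hau.trans hy.1
    have hy0 : 0 < y := ha.trans_le hy1
    simp only
    rw [max_eq_left hy1]
    field_simp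
  rw [hsplit, hint] at h2
  have h3 := abs_le.1 h1
  have h4 := abs_le.1 h2
  rw [abs_le]
  constructor <;> linarith [h3.1, h3.2, h4.1, h4.2]

/-- the same for the reciprocals; copy of Helper69/PP/A0c -/
private theorem mert_log {a : ℝ} (ha : 0 < a) {ε : ℝ} (hε : 0 < ε) : ∀ᶠ T : ℝ in atTop,
    ∀ u u' : ℝ, a ≤ u → u ≤ u' → u' ≤ 1 →
      |(∑ p ∈ (PP T).filter (fun p => u < yy T p ∧ yy T p ≤ u'), 1 / (p : ℝ)) - Real.log (u' / u)| ≤ ε := by
  have hmax : ∀ y, 0 < max y a := fun y => lt_max_of_lt_right ha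
  have hφ : Continuous (fun y => 1 / max y a) :=
    continuous_const.div (continuous_id.max continuous_const) (fun y => (hmax y).ne')
  filter_upwards [mert hφ ha hε] with T hT u u' hau huu' hu'1
  have h := hT u u' hau huu' hu'1
  have h1 : (∑ p ∈ (PP T).filter (fun p => u < yy T p ∧ yy T p ≤ u'), yy T p / p * (1 / max (yy T p) a)) =
      ∑ p ∈ (PP T).filter (fun p => u < yy T p ∧ yy T p ≤ u'), 1 / (p : ℝ) := by
    apply Finset.sum_congr rfl
    intro p hp
    have hp' := Finset.mem_filter.1 hp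
    have hpp : p.Prime := by
      have := hp'.1
      unfold PP at this
      exact (Finset.mem_filter.1 this).2
    have hp0 : (0:ℝ) < p := by exact_mod_cast hpp.pos
    have hy : a ≤ yy T p := hau.trans hp'.2.1.le
    have hy0 : 0 < yy T p := ha.trans_le hy
    rw [max_eq_left hy]
    field_simp
  have h2 : (∫ y in u..u', 1 / max y a) = Real.log (u' / u) := by
    rw [← integral_one_div (a := u) (b := u')]
    · apply intervalIntegral.integral_congr
      intro y hy
      rw [uIcc_of_le huu'] at hy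
      simp only
      rw [max_eq_left (hau.trans hy.1)]
    · rw [uIcc_of_le huu']
      intro h0
      linarith [h0.1]
  rw [h1, h2] at h
  exact h

private theorem IP_eq {e v T : ℝ} (he : 0 < e) (hv : 0 < v) (hT : 1 < T) :
    IP e v T = (PP (T ^ (e + v))).filter (fun p => e / (e + v) < yy (T ^ (e + v)) p ∧ yy (T ^ (e + v)) p ≤ 1) := by
  have hT0 : 0 < T := by linarith
  have hL : 0 < Real.log T := Real.log_pos hT
  have hev : 0 < e + v := by linarith
  ext p
  unfold IP PP yy
  rw [Real.log_rpow hT0]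
  simp only [Finset.mem_filter, Finset.mem_range, Finset.mem_Icc]
  constructor
  · rintro ⟨⟨h1, h2⟩, h3, h4⟩
    have hp0 : (0 : ℝ) < p := by exact_mod_cast h3.pos
    have h5 : e * Real.log T < Real.log p := by
      rw [← Real.log_rpow hT0]
      exact Real.log_lt_log (Real.rpow_pos_of_pos hT0 _) h4
    have h6 : Real.log p ≤ (e + v) * Real.log T := by
      rw [← Real.log_rpow hT0]
      exact Real.log_le_log hp0 ((Nat.le_floor_iff (Real.rpow_nonneg hT0.le _)).1 h2)
    refine ⟨⟨by omega, h3⟩, ?_, ?_⟩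
    · rw [div_lt_div_iff₀ hev (by positivity)]
      nlinarith
    · rw [div_le_one (by positivity)]
      exact h6
  · rintro ⟨⟨h1, h2⟩, h3, h4⟩
    have hp0 : (0 : ℝ) < p := by exact_mod_cast h2.pos
    refine ⟨⟨h2.one_le, by omega⟩, h2, ?_⟩
    rw [div_lt_div_iff₀ hev (by positivity)] at h3
    have h5 : e * Real.log T < Real.log p := by
      have h6 : (e + v) * (e * Real.log T) < (e + v) * Real.log p := by nlinarith
      exact lt_of_mul_lt_mul_left h6 hev.le
    rw [← Real.log_rpow hT0] at h5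
    exact (Real.log_lt_log_iff (Real.rpow_pos_of_pos hT0 _) hp0).1 h5

theorem cI_lim : Stmt_cI_lim := by
  intro e v he hv
  have hev : 0 < e + v := by linarith
  rw [Metric.tendsto_atTop']
  intro ε hε
  have ha : 0 < e / (e + v) := by positivity
  have ha1 : e / (e + v) ≤ 1 := by rw [div_le_one hev]; linarith
  have h1 := (tendsto_rpow_atTop hev).eventually (mert_log ha (show 0 < ε / 4 by positivity))
  have hdec : Tendsto (fun T : ℝ => 2 * T ^ (-e) * (Real.log (1 + v / e) + ε)) atTop (𝓝 0) := by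
    have := ((tendsto_rpow_neg_atTop he).const_mul 2).mul_const (Real.log (1 + v / e) + ε)
    simpa using this
  have h2 := hdec.eventually (gt_mem_nhds (show 0 < ε / 4 by positivity))
  have h4T : ∀ᶠ T : ℝ in atTop, (2 : ℝ) ≤ T ^ e := (tendsto_rpow_atTop he).eventually (eventually_ge_atTop 2)
  obtain ⟨T₀, hT₀⟩ := eventually_atTop.1 ((h1.and h2).and (h4T.and (eventually_gt_atTop (1 : ℝ))))
  refine ⟨T₀, fun T hT => ?_⟩
  obtain ⟨⟨h3, h4⟩, h5, h6⟩ := hT₀ T hT.le
  have hT0 : 0 < T := by linarith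
  have h7 := h3 (e / (e + v)) 1 le_rfl ha1 le_rfl
  rw [← IP_eq he hv h6] at h7
  have h8 : 1 / (e / (e + v)) = 1 + v / e := by field_simp
  rw [h8] at h7
  have h9 := abs_le.1 h7
  have hlow : ∑ p ∈ IP e v T, 1 / (p : ℝ) ≤ cI (IP e v T) := by
    unfold cI
    refine Finset.sum_le_sum fun p hp => ?_
    unfold IP at hp
    have hpp := (Finset.mem_filter.1 hp).2.1
    have hp1 : (1 : ℝ) < p := by exact_mod_cast hpp.one_lt
    exact one_div_le_one_div_of_le (by linarith) (by linarith)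
  have hup : cI (IP e v T) ≤ (1 + 2 * T ^ (-e)) * ∑ p ∈ IP e v T, 1 / (p : ℝ) := by
    unfold cI
    rw [Finset.mul_sum]
    refine Finset.sum_le_sum fun p hp => ?_
    unfold IP at hp
    have hpp := (Finset.mem_filter.1 hp).2.1
    have hpT := (Finset.mem_filter.1 hp).2.2
    have hTe : 0 < T ^ e := Real.rpow_pos_of_pos hT0 _
    have hp2 : (2 : ℝ) < p := by linarith
    rw [Real.rpow_neg hT0.le]
    rw [div_le_iff₀ (by linarith), mul_assoc, one_div, inv_mul_eq_div]
    have h10 : ((p : ℝ) - 1) / p = 1 - 1 / p := by field_simp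
    rw [h10]
    have h11 : 1 / (p : ℝ) ≤ (T ^ e)⁻¹ := by
      rw [one_div]
      exact inv_anti₀ hTe hpT.le
    have h12 : 1 / (p : ℝ) ≤ 1 / 2 := one_div_le_one_div_of_le (by norm_num) hp2.le
    have h13 : 0 < 1 / (p : ℝ) := by positivity
    nlinarith
  have hS : ∑ p ∈ IP e v T, 1 / (p : ℝ) ≤ Real.log (1 + v / e) + ε := by linarith [h9.2]
  have hTe0 : 0 < T ^ (-e) := Real.rpow_pos_of_pos hT0 _
  rw [Real.dist_eq, abs_lt]
  have hmul : 2 * T ^ (-e) * ∑ p ∈ IP e v T, 1 / (p : ℝ) ≤ 2 * T ^ (-e) * (Real.log (1 + v / e) + ε) :=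
    mul_le_mul_of_nonneg_left hS (by positivity)
  constructor
  · linarith [h9.1]
  · nlinarith [h9.2]

end Pool.Agent.AP
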