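import Pool.Agent.Helper56.AP.Stmts
import Pool.Agent.Helper82.AP.ALG
import Pool.Agent.Helper34.AP.SM

/-!
# Project A' (MP_8958e8), block K0a: correlation of `b_1`, `b_2` with `Λ` at `k = 0`
-/

open MeasureTheory Set Filter Topology
open Pool.Agent.Helper57.Zeta Pool.Agent.Helper57.PC Pool.Agent.Helper57.LH Pool.Agent.Helper78.SG
open Pool.Agent.Helper4.SH (om)
open Pool.Agent.Helper69.FF Pool.Agent.Helper57.KP
open scoped ContDiff

set_option autoImplicit false

namespace Pool.Agent.AP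

private theorem lamR_prime (hcr : Stmt_cr_at_prime) {p R : ℕ} (hp : p.Prime) (h : R < p) : lamR R (p : ℤ) = GG 1 R := by
  unfold lamR GG
  rw [Finset.sum_filter]
  refine Finset.sum_congr rfl fun r hr => ?_
  rw [Finset.mem_Icc] at hr
  rw [hcr hr.1 hp (lt_of_le_of_lt hr.2 h)]
  unfold mf
  by_cases hs : Squarefree r
  · rw [if_pos ⟨hs, Nat.coprime_one_right r⟩]
    have h1 : (ArithmeticFunction.moebius r : ℝ) * (ArithmeticFunction.moebius r : ℝ) = 1 := by
      rcases ArithmeticFunction.moebius_eq_or r with h2 | h2 | h2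
      · exact absurd (ArithmeticFunction.moebius_ne_zero_iff_squarefree.2 hs) (by rw [h2]; simp)
      · rw [h2]; norm_num
      · rw [h2]; norm_num
    rw [div_mul_eq_mul_div, h1]
  · rw [if_neg fun h2 => hs h2.1, ArithmeticFunction.moebius_eq_zero_of_not_squarefree hs]
    simp

private theorem GG_nonneg (q R : ℕ) : 0 ≤ GG q R := Finset.sum_nonneg fun _ _ => by positivity

private theorem Sm_add (W : ℝ → ℝ) (R c : ℝ) (f g : ℕ → ℝ) : Sm W R c (fun n => f n + g n) = Sm W R c f + Sm W R c g := by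
  unfold Sm
  rw [← Finset.sum_add_distrib]
  exact Finset.sum_congr rfl fun n _ => by ring

private theorem Sm_smul (W : ℝ → ℝ) (R c A : ℝ) (f : ℕ → ℝ) : Sm W R c (fun n => A * f n) = A * Sm W R c f := by
  unfold Sm
  rw [Finset.mul_sum]
  exact Finset.sum_congr rfl fun n _ => by ring

/-- the general form -/
private theorem K0gen (hLam : Stmt_Sm_Lam) (hpp : Stmt_Sm_pp) {β : ℝ → ℤ → ℝ} {G : ℝ → ℝ} {K R ε : ℝ} {W : ℝ → ℝ} (hW : PF W R) (hR : 0 < R)
    (hK : 0 < K) (h1 : ∀ᶠ T : ℝ in atTop, ∀ n : ℕ, n.Prime → T * Real.exp (-R) ≤ n → β T n = G T)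
    (h2 : ∀ᶠ T : ℝ in atTop, |G T| ≤ K * Real.log T)
    (h3 : ∀ᶠ T : ℝ in atTop, ∀ n : ℤ, n ≠ 0 → |(n : ℝ)| ≤ T ^ 2 → |β T n| ≤ T ^ (1 / 8 : ℝ)) (hε : 0 < ε) :
    ∀ᶠ T : ℝ in atTop, ∀ c : ℝ, Real.log T ≤ c → c ≤ 3 / 2 * Real.log T →
      |Sm W R c (fun n => ArithmeticFunction.vonMangoldt n * β T n) - (∫ y, W y ^ 2) * G T| ≤ ε * Real.log T := by
  obtain ⟨C, hC, hpp⟩ := hpp hW hR
  have hL := hLam hW hR (ε := ε / (2 * K)) (by positivity)
  obtain ⟨c0, hc0⟩ := eventually_atTop.1 hL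
  have e1 : ∀ᶠ T : ℝ in atTop, c0 ≤ Real.log T := Real.tendsto_log_atTop.eventually_ge_atTop c0
  have e2 : ∀ᶠ T : ℝ in atTop, 2 * R + 1 ≤ Real.log T := Real.tendsto_log_atTop.eventually_ge_atTop _
  have e3 : ∀ᶠ T : ℝ in atTop, K * Real.log T ≤ T ^ (1 / 8 : ℝ) := by
    have h := (isLittleO_log_rpow_atTop (r := 1 / 8) (by norm_num)).def (c := 1 / K) (by positivity)
    filter_upwards [h, eventually_ge_atTop 1] with T hT hT1
    have hl : 0 ≤ Real.log T := Real.log_nonneg hT1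
    rw [Real.norm_of_nonneg hl, Real.norm_of_nonneg (by positivity)] at hT
    calc K * Real.log T ≤ K * (1 / K * T ^ (1 / 8 : ℝ)) := mul_le_mul_of_nonneg_left hT hK.le
      _ = T ^ (1 / 8 : ℝ) := by field_simp
  have e4 : ∀ᶠ T : ℝ in atTop, 3 * C ≤ ε / 2 * T ^ (3 / 8 : ℝ) := by
    have h := (tendsto_rpow_atTop (show (0 : ℝ) < 3 / 8 by norm_num)).eventually_ge_atTop (3 * C / (ε / 2))
    filter_upwards [h] with T hT
    rw [div_le_iff₀ (by positivity)] at hT
    linarith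
  filter_upwards [e1, e2, e3, e4, h1, h2, h3, eventually_ge_atTop 1] with T t1 t2 t3 t4 t5 t6 t7 t8 c hc1 hc2
  have hT0 : 0 < T := by linarith
  have hl0 : 0 < Real.log T := by linarith
  have hc : 1 ≤ c := by linarith
  -- the split
  have s1 : Sm W R c (fun n => ArithmeticFunction.vonMangoldt n * β T n) =
      Sm W R c (fun n => if n.Prime then 0 else ArithmeticFunction.vonMangoldt n * (β T n - G T)) +
        G T * Sm W R c (fun n => ArithmeticFunction.vonMangoldt n) := by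
    rw [← Sm_smul, ← Sm_add]
    unfold Sm
    refine Finset.sum_congr rfl fun n hn => ?_
    rw [Finset.mem_Icc] at hn
    by_cases hw : W (Real.log n - c) = 0
    · rw [hw]
      simp
    · beta_reduce
      by_cases hp : n.Prime
      · rw [if_pos hp]
        have h4 := hW.supp _ hw
        have h5 : T * Real.exp (-R) ≤ n := by
          have h6 : Real.log T - R ≤ Real.log n := by
            have := (abs_le.1 h4).1
            linarith
          have hn0 : (0 : ℝ) < n := by exact_mod_cast hp.pos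
          have h7 := Real.exp_le_exp.2 h6
          rwa [Real.exp_log hn0, sub_eq_add_neg, Real.exp_add, Real.exp_log hT0] at h7
        rw [t5 n hp h5]
        ring
      · rw [if_neg hp]
        ring
  have s2 : |Sm W R c (fun n => if n.Prime then 0 else ArithmeticFunction.vonMangoldt n * (β T n - G T))| ≤
      C * (2 * T ^ (1 / 8 : ℝ)) * c * Real.exp (-(c / 2)) := by
    refine hpp c hc (fun n => β T n - G T) (2 * T ^ (1 / 8 : ℝ)) fun n hn1 hn2 => ?_
    have hn0 : ((n : ℤ)) ≠ 0 := by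
      intro h
      have : n = 0 := by exact_mod_cast h
      omega
    have h4 : |((n : ℤ) : ℝ)| ≤ T ^ 2 := by
      rw [Int.cast_natCast, abs_of_nonneg (Nat.cast_nonneg n)]
      refine hn2.trans ?_
      rw [← Real.exp_log (pow_pos hT0 2), Real.log_pow]
      apply Real.exp_le_exp.2
      push_cast
      linarith
    calc |β T n - G T| ≤ |β T n| + |G T| := abs_sub _ _
      _ ≤ T ^ (1 / 8 : ℝ) + T ^ (1 / 8 : ℝ) := add_le_add (t7 n hn0 h4) (t6.trans t3)
      _ = 2 * T ^ (1 / 8 : ℝ) := by ring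
  have s3 : C * (2 * T ^ (1 / 8 : ℝ)) * c * Real.exp (-(c / 2)) ≤ ε / 2 * Real.log T := by
    have h4 : Real.exp (-(c / 2)) ≤ T ^ (-(1 / 2) : ℝ) := by
      rw [Real.rpow_def_of_pos hT0]
      apply Real.exp_le_exp.2
      linarith
    have h5 : T ^ (1 / 8 : ℝ) * T ^ (-(1 / 2) : ℝ) = T ^ (-(3 / 8) : ℝ) := by
      rw [← Real.rpow_add hT0]
      norm_num
    have h6 : T ^ (3 / 8 : ℝ) * T ^ (-(3 / 8) : ℝ) = 1 := by
      rw [← Real.rpow_add hT0]
      norm_num
    have h7 : 0 < T ^ (-(3 / 8) : ℝ) := Real.rpow_pos_of_pos hT0 _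
    calc C * (2 * T ^ (1 / 8 : ℝ)) * c * Real.exp (-(c / 2)) ≤ C * (2 * T ^ (1 / 8 : ℝ)) * (3 / 2 * Real.log T) * T ^ (-(1 / 2) : ℝ) := by
          gcongr
      _ = 3 * C * (T ^ (1 / 8 : ℝ) * T ^ (-(1 / 2) : ℝ)) * Real.log T := by ring
      _ = 3 * C * T ^ (-(3 / 8) : ℝ) * Real.log T := by rw [h5]
      _ ≤ (ε / 2 * T ^ (3 / 8 : ℝ)) * T ^ (-(3 / 8) : ℝ) * Real.log T := by gcongr
      _ = ε / 2 * (T ^ (3 / 8 : ℝ) * T ^ (-(3 / 8) : ℝ)) * Real.log T := by ring
      _ = ε / 2 * Real.log T := by rw [h6, mul_one]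
  have s4 : |G T * Sm W R c (fun n => ArithmeticFunction.vonMangoldt n) - (∫ y, W y ^ 2) * G T| ≤ ε / 2 * Real.log T := by
    have h4 := hc0 c (t1.trans hc1)
    rw [show G T * Sm W R c (fun n => ArithmeticFunction.vonMangoldt n) - (∫ y, W y ^ 2) * G T =
      G T * (Sm W R c (fun n => ArithmeticFunction.vonMangoldt n) - ∫ y, W y ^ 2) by ring, abs_mul]
    calc |G T| * |Sm W R c (fun n => ArithmeticFunction.vonMangoldt n) - ∫ y, W y ^ 2| ≤ K * Real.log T * (ε / (2 * K)) :=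
          mul_le_mul t6 h4 (abs_nonneg _) (by positivity)
      _ = ε / 2 * Real.log T := by field_simp
  rw [s1, add_sub_assoc]
  calc |Sm W R c (fun n => if n.Prime then 0 else ArithmeticFunction.vonMangoldt n * (β T n - G T)) +
        (G T * Sm W R c (fun n => ArithmeticFunction.vonMangoldt n) - (∫ y, W y ^ 2) * G T)| ≤ _ := abs_add_le _ _
    _ ≤ ε / 2 * Real.log T + ε / 2 * Real.log T := add_le_add (s2.trans s3) s4
    _ = ε * Real.log T := by ring

/-- `T^a < T e^(-R)` for `a < 1` -/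
private theorem pow_lt {a R : ℝ} (ha : a < 1) : ∀ᶠ T : ℝ in atTop, T ^ a < T * Real.exp (-R) := by
  have h := (tendsto_rpow_atTop (show (0 : ℝ) < 1 - a by linarith)).eventually_gt_atTop (Real.exp R)
  filter_upwards [h, eventually_gt_atTop 0] with T hT hT0
  have h1 : T ^ a * T ^ (1 - a) = T := by
    rw [← Real.rpow_add hT0]
    norm_num
  have h2 : 0 < T ^ a := Real.rpow_pos_of_pos hT0 _
  have h3 : Real.exp (-R) * Real.exp R = 1 := by rw [← Real.exp_add]; norm_num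
  have h4 : 0 < Real.exp (-R) := Real.exp_pos _
  calc T ^ a = T ^ a * (Real.exp R * Real.exp (-R)) := by rw [mul_comm (Real.exp R), h3, mul_one]
    _ < T ^ a * (T ^ (1 - a) * Real.exp (-R)) := by gcongr
    _ = T * Real.exp (-R) := by rw [← mul_assoc, h1]

/-- `GG 1 ⌊T^a⌋ ≤ 2 log T` -/
private theorem GG_log (hGG : Stmt_GG_bd) {a : ℝ} (ha0 : 0 ≤ a) (ha : a ≤ 1) : ∀ᶠ T : ℝ in atTop, GG 1 ⌊T ^ a⌋₊ ≤ 2 * Real.log T := by
  obtain ⟨C, hC, h⟩ := hGG
  have e1 : ∀ᶠ T : ℝ in atTop, C ≤ Real.log T := Real.tendsto_log_atTop.eventually_ge_atTop C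
  filter_upwards [e1, eventually_ge_atTop 1] with T t1 t2
  have h1 : 1 ≤ T ^ a := Real.one_le_rpow t2 ha0
  have h2 : 1 ≤ ⌊T ^ a⌋₊ := Nat.one_le_floor_iff _ |>.2 h1
  refine (h _ h2).2.trans ?_
  have h3 : (⌊T ^ a⌋₊ : ℝ) ≤ T := by
    refine (Nat.floor_le (by linarith)).trans ?_
    calc T ^ a ≤ T ^ (1 : ℝ) := Real.rpow_le_rpow_of_exponent_le t2 ha
      _ = T := Real.rpow_one T
  have h4 : Real.log (⌊T ^ a⌋₊ : ℝ) ≤ Real.log T := Real.log_le_log (by exact_mod_cast h2) h3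
  linarith

theorem K0a1_of (hcr : Stmt_cr_at_prime) (hGG : Stmt_GG_bd) (hb : Stmt_b1_bd) (hLam : Stmt_Sm_Lam) (hpp : Stmt_Sm_pp) : Stmt_K0a1 := by
  intro κ2 e ε h2 he h hε W R hW hR
  refine K0gen hLam hpp (β := fun T n => b1 κ2 e T n) (K := 4) hW hR (by norm_num) ?_ ?_ (hb h2.le (by linarith) he.le (by norm_num)) hε
  · filter_upwards [pow_lt (a := 1 / 2 - e) (R := R) (by linarith), pow_lt (a := κ2) (R := R) (by linarith), eventually_gt_atTop 0]
      with T t1 t2 t3 n hp hn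
    have h3 : ⌊T ^ (1 / 2 - e)⌋₊ < n := (Nat.floor_lt (by positivity)).2 (lt_of_lt_of_le t1 hn)
    have h4 : ⌊T ^ κ2⌋₊ < n := (Nat.floor_lt (by positivity)).2 (lt_of_lt_of_le t2 hn)
    unfold b1
    rw [lamR_prime hcr hp h3, lamR_prime hcr hp h4]
  · filter_upwards [GG_log hGG (a := 1 / 2 - e) (by linarith) (by linarith), GG_log hGG (a := κ2) h2.le (by linarith)] with T t1 t2
    have h3 := GG_nonneg 1 ⌊T ^ (1 / 2 - e)⌋₊
    have h4 := GG_nonneg 1 ⌊T ^ κ2⌋₊
    rw [abs_le]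
    constructor <;> linarith

private theorem EX_e {es : List ℝ} {v c3 D s : ℝ} (hE : EX es v c3 D s) : (∀ e ∈ es, e + v < 1) ∧ c3 < 1 := by
  have h1 : ∀ l : List ℝ, (∀ x ∈ l, 0 ≤ x) → ∀ x ∈ l, x ≤ l.sum := by
    intro l
    induction l with
    | nil => intro _ x hx; simp at hx
    | cons a l ih =>
      intro h x hx
      have h0 := h a (by simp)
      have hs : 0 ≤ l.sum := List.sum_nonneg fun y hy => h y (by simp [hy])
      rw [List.sum_cons]
      rcases List.mem_cons.1 hx with rfl | hx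
      · linarith
      · have := ih (fun y hy => h y (by simp [hy])) x hx
        linarith
  have hpos : ∀ x ∈ es, 0 ≤ x := fun x hx => hE.D0.le.trans (hE.ge x hx)
  have hlen : (1 : ℝ) ≤ es.length := by
    have : 1 ≤ es.length := List.length_pos_of_ne_nil hE.ne
    exact_mod_cast this
  have hv := hE.v0
  have h2 : v ≤ es.length * v := le_mul_of_one_le_left hv.le hlen
  have h3 := hE.small
  have hc := hE.c0
  have hs := hE.s0
  obtain ⟨x0, hx0⟩ := List.exists_mem_of_ne_nil es hE.ne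
  have h4 : D ≤ 1 / 2 + s := by
    rw [← hE.sum]
    exact (hE.ge x0 hx0).trans (h1 es hpos x0 hx0)
  refine ⟨fun e he => ?_, by linarith⟩
  have h5 := h1 es hpos e he
  rw [hE.sum] at h5
  linarith

theorem K0a2_of (hcr : Stmt_cr_at_prime) (hGG : Stmt_GG_bd) (hb : Stmt_b2_bd) (hcI : Stmt_cI_lim) (hLam : Stmt_Sm_Lam) (hpp : Stmt_Sm_pp) :
    Stmt_K0a2 := by
  intro es v c3 D s ε hE hε W R hW hR
  obtain ⟨hev, hc3⟩ := EX_e hE
  have hlim : Tendsto (fun T : ℝ => ((IL es v T).map cI).prod) atTop (𝓝 (es.map fun e => Real.log (1 + v / e)).prod) := by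
    have h1 : (fun T : ℝ => ((IL es v T).map cI).prod) = fun T : ℝ => (es.map fun e => cI (IP e v T)).prod := by
      funext T
      unfold IL
      rw [List.map_map]
      rfl
    rw [h1]
    exact tendsto_list_prod es fun e he => hcI (hE.D0.trans_le (hE.ge e he)) hE.v0
  obtain ⟨M, hM⟩ : ∃ M : ℝ, M = |(es.map fun e => Real.log (1 + v / e)).prod| + 1 := ⟨_, rfl⟩
  have hM0 : 0 < M := by rw [hM]; positivity
  have hbd : ∀ᶠ T : ℝ in atTop, |((IL es v T).map cI).prod| ≤ M := by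
    have := hlim.abs.eventually (gt_mem_nhds (show |(es.map fun e => Real.log (1 + v / e)).prod| < M by rw [hM]; linarith))
    filter_upwards [this] with T hT using hT.le
  refine K0gen hLam hpp (β := fun T n => b2 c3 es v T n) (K := 2 * M) hW hR (by positivity) ?_ ?_ (hb hE (by norm_num)) hε
  · have hp : ∀ᶠ T : ℝ in atTop, ∀ e ∈ {x | x ∈ es}, T ^ (e + v) < T * Real.exp (-R) :=
      (eventually_all_finite (List.finite_toSet es)).2 fun e he => pow_lt (hev e he)
    filter_upwards [hp, pow_lt (a := c3) (R := R) hc3, eventually_gt_atTop 0] with T t1 t2 t3 n hp hn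
    have h3 : ⌊T ^ c3⌋₊ < n := (Nat.floor_lt (by positivity)).2 (lt_of_lt_of_le t2 hn)
    unfold b2 bb
    rw [lamR_prime hcr hp h3]
    congr 2
    unfold IL
    rw [List.map_map, List.map_map]
    refine List.map_congr_left fun e he => ?_
    simp only [Function.comp]
    have h4 : omI (IP e v T) (n : ℤ) = 0 := by
      unfold omI
      refine Finset.sum_eq_zero fun p hpI => if_neg fun hdvd => ?_
      unfold IP at hpI
      rw [Finset.mem_filter, Finset.mem_Icc] at hpI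
      have h5 : p ∣ n := by exact_mod_cast hdvd
      have h6 : p = n := (Nat.prime_dvd_prime_iff_eq hpI.2.1 hp).1 h5
      have h7 : (p : ℝ) ≤ T ^ (e + v) := (Nat.cast_le.2 hpI.1.2).trans (Nat.floor_le (by positivity))
      rw [h6] at h7
      have := t1 e he
      linarith
    rw [h4, sub_zero]
  · filter_upwards [hbd, GG_log hGG (a := c3) hE.c0.le hc3.le, eventually_ge_atTop 1] with T t1 t2 t3
    have h3 := GG_nonneg 1 ⌊T ^ c3⌋₊
    have h4 : 0 ≤ Real.log T := Real.log_nonneg t3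
    rw [abs_mul, abs_of_nonneg h3]
    calc GG 1 ⌊T ^ c3⌋₊ * |((IL es v T).map cI).prod| ≤ 2 * Real.log T * M := mul_le_mul t2 t1 (abs_nonneg _) (by positivity)
      _ = 2 * M * Real.log T := by ring

/-- block K0a, `b_1`; `GG_bd`, `b1_bd` from block GB -/
theorem K0a1_GB (hGG : Stmt_GG_bd) (hb : Stmt_b1_bd) : Stmt_K0a1 :=
  K0a1_of (fun {_ _} => cr_at_prime) hGG hb (fun {_ _ _} => Sm_Lam) (fun {_ _} => Sm_pp)

/-- block K0a, `b_2`; `GG_bd`, `b2_bd`, `cI_lim` from block GB -/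
theorem K0a2_GB (hGG : Stmt_GG_bd) (hb : Stmt_b2_bd) (hcI : Stmt_cI_lim) : Stmt_K0a2 :=
  K0a2_of (fun {_ _} => cr_at_prime) hGG hb hcI (fun {_ _ _} => Sm_Lam) (fun {_ _} => Sm_pp)

end Pool.Agent.AP
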