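import Pool.Agent.Helper11.AP.K0a
import Pool.Agent.Helper11.AP.GB1
import Pool.Agent.Helper56.AP.GB2

/-!
# Project A' (MP_8958e8): K0a1, K0a2 and the bounds of block GB, closed
-/

set_option autoImplicit false

namespace Pool.Agent.AP

theorem xi_bd : Stmt_xi_bd := xi_bd_of GG_bd

theorem lamR_bd : Stmt_lamR_bd := lamR_bd_of GG_bd

theorem b1_bd : Stmt_b1_bd := b1_bd_of GG_bd

theorem b2_bd : Stmt_b2_bd := b2_bd_of GG_bd

theorem K0a1 : Stmt_K0a1 := K0a1_GB GG_bd b1_bd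

theorem K0a2 : Stmt_K0a2 := K0a2_GB GG_bd b2_bd cI_lim

end Pool.Agent.AP
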